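import Pool.Agent.BEW.StmtsP
import Pool.Agent.BEO.Stmts
import Pool.Agent.Helper91_BE01.EMB

/-!
# Squad BEW, row EIG: the eigenfunctions
-/

set_option autoImplicit false

namespace Pool.Agent.BEW.H13

open Set Filter Topology MeasureTheory
open scoped InnerProductSpace ENNReal
open Pool.Agent.BE01 Pool.Agent.BEL Pool.Agent.BEG Pool.Agent.BEH Pool.Agent.BER Pool.Agent.BEW
open Pool.Agent.BE01.H91 (TT tl gr tl_ae gr_ae pair_mem)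

noncomputable section

variable {d : ℕ}

theorem wk_iff {Ω : Set (En d)} (G : Lp (En d) 2 (mu Ω)) (f : Lp ℝ 2 (mu Ω)) :
    Wk Ω G f ↔ ∀ ψ : TT Ω, ⟪G, gr Ω ψ⟫_ℝ = ⟪f, tl Ω 2 ψ⟫_ℝ := by
  have h1 : ∀ ψ : TT Ω, ⟪G, gr Ω ψ⟫_ℝ = ∫ x, ⟪G x, gradient ψ.1 x⟫_ℝ ∂(mu Ω) := by
    intro ψ
    rw [L2.inner_def]
    refine integral_congr_ae ?_
    filter_upwards [gr_ae Ω ψ] with x hx
    rw [hx]
  have h2 : ∀ ψ : TT Ω, ⟪f, tl Ω 2 ψ⟫_ℝ = ∫ x, f x * ψ.1 x ∂(mu Ω) := by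
    intro ψ
    rw [L2.inner_def]
    refine integral_congr_ae ?_
    filter_upwards [tl_ae Ω 2 ψ] with x hx
    rw [hx]
    simp only [RCLike.inner_apply, conj_trivial]
    ring
  constructor
  · intro h ψ
    rw [h1, h2]
    exact h ψ.1 ψ.2
  · intro h ψ hψ
    have h3 := h ⟨ψ, hψ⟩
    rw [h1, h2] at h3
    exact h3

/-- `H10` as a submodule -/
def HS (Ω : Set (En d)) : Submodule ℝ (Lp ℝ 2 (mu Ω) × Lp (En d) 2 (mu Ω)) :=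
  (LinearMap.range ((tl Ω 2).prod (gr Ω))).topologicalClosure

theorem HS_eq (Ω : Set (En d)) : (HS Ω : Set (Lp ℝ 2 (mu Ω) × Lp (En d) 2 (mu Ω))) = H10 Ω := by
  unfold HS H10
  rw [Submodule.topologicalClosure_coe]
  have h : (LinearMap.range ((tl Ω 2).prod (gr Ω)) :
      Set (Lp ℝ 2 (mu Ω) × Lp (En d) 2 (mu Ω))) =
      {P | ∃ ψ, Tst Ω ψ ∧ P.1 =ᵐ[mu Ω] ψ ∧ P.2 =ᵐ[mu Ω] gradient ψ} := by
    ext P
    constructor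
    · rintro ⟨ψ, rfl⟩
      exact pair_mem Ω ψ
    · rintro ⟨ψ, hψ, h1, h2⟩
      refine ⟨⟨ψ, hψ⟩, ?_⟩
      exact Prod.ext (Lp.ext ((tl_ae Ω 2 ⟨ψ, hψ⟩).trans h1.symm))
        (Lp.ext ((gr_ae Ω ⟨ψ, hψ⟩).trans h2.symm))
  rw [h]

theorem mem_HS {Ω : Set (En d)} {P : Lp ℝ 2 (mu Ω) × Lp (En d) 2 (mu Ω)} :
    P ∈ HS Ω ↔ P ∈ H10 Ω := by
  rw [← HS_eq]
  exact Iff.rfl

theorem HS_closed (Ω : Set (En d)) :
    IsClosed (HS Ω : Set (Lp ℝ 2 (mu Ω) × Lp (En d) 2 (mu Ω))) := by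
  rw [HS_eq]
  exact isClosed_closure

/-- the triples `(u, ∇u, - Δ u)` -/
def WS (Ω : Set (En d)) : Submodule ℝ ((Lp ℝ 2 (mu Ω) × Lp (En d) 2 (mu Ω)) × Lp ℝ 2 (mu Ω)) where
  carrier := {P | P.1 ∈ HS Ω ∧ ∀ ψ : TT Ω, ⟪P.1.2, gr Ω ψ⟫_ℝ = ⟪P.2, tl Ω 2 ψ⟫_ℝ}
  add_mem' := by
    rintro a b ⟨h1, h2⟩ ⟨k1, k2⟩
    refine ⟨(HS Ω).add_mem h1 k1, fun ψ => ?_⟩
    show ⟪a.1.2 + b.1.2, gr Ω ψ⟫_ℝ = ⟪a.2 + b.2, tl Ω 2 ψ⟫_ℝ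
    rw [inner_add_left, inner_add_left, h2 ψ, k2 ψ]
  zero_mem' := by
    refine ⟨(HS Ω).zero_mem, fun ψ => ?_⟩
    show ⟪(0 : Lp (En d) 2 (mu Ω)), gr Ω ψ⟫_ℝ = ⟪(0 : Lp ℝ 2 (mu Ω)), tl Ω 2 ψ⟫_ℝ
    rw [inner_zero_left, inner_zero_left]
  smul_mem' := by
    rintro c a ⟨h1, h2⟩
    refine ⟨(HS Ω).smul_mem c h1, fun ψ => ?_⟩
    show ⟪c • a.1.2, gr Ω ψ⟫_ℝ = ⟪c • a.2, tl Ω 2 ψ⟫_ℝ
    rw [real_inner_smul_left, real_inner_smul_left, h2 ψ]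

theorem mem_WS {Ω : Set (En d)} {u : Lp ℝ 2 (mu Ω)} {G : Lp (En d) 2 (mu Ω)} {f : Lp ℝ 2 (mu Ω)} :
    (((u, G), f) : (Lp ℝ 2 (mu Ω) × Lp (En d) 2 (mu Ω)) × Lp ℝ 2 (mu Ω)) ∈ WS Ω ↔
      (u, G) ∈ H10 Ω ∧ Wk Ω G f := by
  rw [wk_iff, ← mem_HS]
  exact Iff.rfl

theorem WS_closed (Ω : Set (En d)) :
    IsClosed (WS Ω : Set ((Lp ℝ 2 (mu Ω) × Lp (En d) 2 (mu Ω)) × Lp ℝ 2 (mu Ω))) := by
  have h1 : IsClosed {P : (Lp ℝ 2 (mu Ω) × Lp (En d) 2 (mu Ω)) × Lp ℝ 2 (mu Ω) | P.1 ∈ HS Ω} :=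
    (HS_closed Ω).preimage continuous_fst
  have h2 : IsClosed {P : (Lp ℝ 2 (mu Ω) × Lp (En d) 2 (mu Ω)) × Lp ℝ 2 (mu Ω) |
      ∀ ψ : TT Ω, ⟪P.1.2, gr Ω ψ⟫_ℝ = ⟪P.2, tl Ω 2 ψ⟫_ℝ} := by
    rw [Set.ofPred_forall]
    refine isClosed_iInter fun ψ => isClosed_eq ?_ ?_
    · exact (continuous_snd.comp continuous_fst).inner continuous_const
    · exact continuous_snd.inner continuous_const
  exact h1.inter h2

theorem WS_norm {Ω : Set (En d)} {P : (Lp ℝ 2 (mu Ω) × Lp (En d) 2 (mu Ω)) × Lp ℝ 2 (mu Ω)}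
    (hP : P ∈ WS Ω) : ‖P.1.2‖ ^ 2 ≤ ‖P.2‖ * ‖P.1.1‖ := by
  have hcl : IsClosed {Q : Lp ℝ 2 (mu Ω) × Lp (En d) 2 (mu Ω) | ⟪P.1.2, Q.2⟫_ℝ = ⟪P.2, Q.1⟫_ℝ} :=
    isClosed_eq (continuous_const.inner continuous_snd) (continuous_const.inner continuous_fst)
  have hsub : (LinearMap.range ((tl Ω 2).prod (gr Ω)) :
      Set (Lp ℝ 2 (mu Ω) × Lp (En d) 2 (mu Ω))) ⊆
      {Q : Lp ℝ 2 (mu Ω) × Lp (En d) 2 (mu Ω) | ⟪P.1.2, Q.2⟫_ℝ = ⟪P.2, Q.1⟫_ℝ} := by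
    rintro _ ⟨ψ, rfl⟩
    exact hP.2 ψ
  have h1 : P.1 ∈ {Q : Lp ℝ 2 (mu Ω) × Lp (En d) 2 (mu Ω) | ⟪P.1.2, Q.2⟫_ℝ = ⟪P.2, Q.1⟫_ℝ} := by
    have h2 := closure_minimal hsub hcl
    rw [← Submodule.topologicalClosure_coe] at h2
    exact h2 hP.1
  have h3 : ⟪P.1.2, P.1.2⟫_ℝ = ⟪P.2, P.1.1⟫_ℝ := h1
  rw [← real_inner_self_eq_norm_sq, h3]
  exact real_inner_le_norm _ _

/-- sums in the submodule of the triples converge -/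
theorem WS_lim {Ω : Set (En d)} {u : ℕ → Lp ℝ 2 (mu Ω)} {G : ℕ → Lp (En d) 2 (mu Ω)}
    {f : ℕ → Lp ℝ 2 (mu Ω)} {u' f' : Lp ℝ 2 (mu Ω)}
    (h : ∀ n, (((u n, G n), f n) : (Lp ℝ 2 (mu Ω) × Lp (En d) 2 (mu Ω)) × Lp ℝ 2 (mu Ω)) ∈ WS Ω)
    (hu : Tendsto u atTop (𝓝 u')) (hf : Tendsto f atTop (𝓝 f')) :
    ∃ G' : Lp (En d) 2 (mu Ω),
      (((u', G'), f') : (Lp ℝ 2 (mu Ω) × Lp (En d) 2 (mu Ω)) × Lp ℝ 2 (mu Ω)) ∈ WS Ω := by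
  have hG : CauchySeq G := by
    rw [Metric.cauchySeq_iff]
    intro ε hε
    obtain ⟨N1, h1⟩ := Metric.cauchySeq_iff.1 hu.cauchySeq ε hε
    obtain ⟨N2, h2⟩ := Metric.cauchySeq_iff.1 hf.cauchySeq ε hε
    refine ⟨max N1 N2, fun m hm n hn => ?_⟩
    have a1 := h1 m (le_of_max_le_left hm) n (le_of_max_le_left hn)
    have a2 := h2 m (le_of_max_le_right hm) n (le_of_max_le_right hn)
    have a3 := WS_norm ((WS Ω).sub_mem (h m) (h n))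
    have a4 : ‖G m - G n‖ ^ 2 ≤ ‖f m - f n‖ * ‖u m - u n‖ := a3
    rw [dist_eq_norm] at a1 a2 ⊢
    have a5 : ‖G m - G n‖ ^ 2 < ε ^ 2 := by
      refine a4.trans_lt ?_
      have h7 := norm_nonneg (u m - u n)
      have h8 := norm_nonneg (f m - f n)
      nlinarith
    exact lt_of_pow_lt_pow_left₀ 2 hε.le a5
  obtain ⟨G', hG'⟩ := cauchySeq_tendsto_of_complete hG
  refine ⟨G', ?_⟩
  have h3 : Tendsto (fun n => (((u n, G n), f n) :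
      (Lp ℝ 2 (mu Ω) × Lp (En d) 2 (mu Ω)) × Lp ℝ 2 (mu Ω))) atTop (𝓝 ((u', G'), f')) :=
    (hu.prodMk_nhds hG').prodMk_nhds hf
  exact (WS_closed Ω).mem_of_tendsto h3 (Eventually.of_forall h)

theorem eig : RsmStmt → Pool.Agent.BEO.WeoStmt → EigStmt := by
  intro hR _ d β m l J s Bo x hd hβ hJ hs hBo hx
  choose G hG1 hG2 using fun k => hR d β m J s Bo k hd hβ hJ hs hBo
  have hc : ∀ k, (((J (s k), G k), J (((k : ℝ) + 1) ^ 2 • s k + Bo (s k))) :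
      (Lp ℝ 2 (mu (Sh d β (β + Real.pi))) × Lp (En d) 2 (mu (Sh d β (β + Real.pi)))) ×
        Lp ℝ 2 (mu (Sh d β (β + Real.pi)))) ∈ WS (Sh d β (β + Real.pi)) :=
    fun k => mem_WS.2 ⟨hG1 k, hG2 k⟩
  -- the partial sums
  have hx1 : Tendsto (fun n => ∑ k ∈ Finset.range n, ⟪s k, x⟫_ℝ • s k) atTop (𝓝 x) := by
    have h1 := (s.hasSum_repr x).tendsto_sum_nat
    simpa only [s.repr_apply_apply] using h1
  have hx2 : Tendsto (fun n => ∑ k ∈ Finset.range n, ⟪s k, l • x - Bo x⟫_ℝ • s k) atTop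
      (𝓝 (l • x - Bo x)) := by
    have h1 := (s.hasSum_repr (l • x - Bo x)).tendsto_sum_nat
    simpa only [s.repr_apply_apply] using h1
  have hx3 : Tendsto (fun n => Bo (∑ k ∈ Finset.range n, ⟪s k, x⟫_ℝ • s k)) atTop (𝓝 (Bo x)) :=
    (Bo.continuous.tendsto x).comp hx1
  have hy : Tendsto (fun n => ∑ k ∈ Finset.range n,
      ⟪s k, x⟫_ℝ • (((k : ℝ) + 1) ^ 2 • s k + Bo (s k))) atTop (𝓝 (l • x)) := by
    have h1 := hx2.add hx3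
    rw [sub_add_cancel] at h1
    refine h1.congr fun n => ?_
    rw [map_sum, ← Finset.sum_add_distrib]
    refine Finset.sum_congr rfl fun k _ => ?_
    have h2 := hx k
    have h3 : ⟪s k, l • x - Bo x⟫_ℝ = ((k : ℝ) + 1) ^ 2 * ⟪s k, x⟫_ℝ := by
      rw [inner_sub_right, real_inner_smul_right]
      have h4 : ((k : ℝ) + 1) ^ 2 * ⟪s k, x⟫_ℝ + ⟪s k, Bo x⟫_ℝ = l * ⟪s k, x⟫_ℝ := h2
      linarith
    rw [h3, map_smul, smul_add, smul_smul, mul_comm]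
  have hlim := WS_lim (Ω := Sh d β (β + Real.pi))
    (u := fun n => J (∑ k ∈ Finset.range n, ⟪s k, x⟫_ℝ • s k))
    (G := fun n => ∑ k ∈ Finset.range n, ⟪s k, x⟫_ℝ • G k)
    (f := fun n => J (∑ k ∈ Finset.range n,
      ⟪s k, x⟫_ℝ • (((k : ℝ) + 1) ^ 2 • s k + Bo (s k))))
    (u' := J x) (f' := J (l • x)) (fun n => ?_)
    ((J.continuous.tendsto x).comp hx1) ((J.continuous.tendsto (l • x)).comp hy)
  · obtain ⟨G', hG'⟩ := hlim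
    rw [map_smul] at hG'
    exact ⟨G', mem_WS.1 hG'⟩
  · have h1 := (WS (Sh d β (β + Real.pi))).sum_mem (t := Finset.range n)
      (f := fun k => ⟪s k, x⟫_ℝ • (((J (s k), G k), J (((k : ℝ) + 1) ^ 2 • s k + Bo (s k))) :
      (Lp ℝ 2 (mu (Sh d β (β + Real.pi))) × Lp (En d) 2 (mu (Sh d β (β + Real.pi)))) ×
        Lp ℝ 2 (mu (Sh d β (β + Real.pi))))) fun k _ =>
      (WS (Sh d β (β + Real.pi))).smul_mem _ (hc k)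
    have h2 : ∑ k ∈ Finset.range n, ⟪s k, x⟫_ℝ • (((J (s k), G k),
        J (((k : ℝ) + 1) ^ 2 • s k + Bo (s k))) :
        (Lp ℝ 2 (mu (Sh d β (β + Real.pi))) × Lp (En d) 2 (mu (Sh d β (β + Real.pi)))) ×
        Lp ℝ 2 (mu (Sh d β (β + Real.pi)))) =
        ((J (∑ k ∈ Finset.range n, ⟪s k, x⟫_ℝ • s k), ∑ k ∈ Finset.range n, ⟪s k, x⟫_ℝ • G k),
          J (∑ k ∈ Finset.range n, ⟪s k, x⟫_ℝ • (((k : ℝ) + 1) ^ 2 • s k + Bo (s k)))) := by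
      refine Prod.ext (Prod.ext ?_ ?_) ?_
      · rw [Prod.fst_sum, Prod.fst_sum, map_sum]
        refine Finset.sum_congr rfl fun k _ => ?_
        rw [map_smul]
        rfl
      · rw [Prod.fst_sum, Prod.snd_sum]
        refine Finset.sum_congr rfl fun k _ => ?_
        rfl
      · refine Prod.snd_sum.trans (Eq.trans ?_ (map_sum J _ _).symm)
        refine Finset.sum_congr rfl fun k _ => ?_
        rw [map_smul]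
        rfl
    rw [h2] at h1
    exact h1

end

end Pool.Agent.BEW.H13
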