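import Pool.Agent.BEW.StmtsD
import Pool.Agent.Helper29_BEL.GLP

/-!
# Squad BEW, row LVZ: the energy of the first mode over a step
-/

set_option autoImplicit false

namespace Pool.Agent.BEW.H13

open Set Filter Topology MeasureTheory
open scoped InnerProductSpace ENNReal
open Pool.Agent.BE01 Pool.Agent.BEL Pool.Agent.BEG Pool.Agent.BEH Pool.Agent.BER Pool.Agent.BEW

noncomputable section

variable {X : Type} [MeasurableSpace X]

theorem int_bdd {μ : Measure X} (h : IsFiniteMeasure μ) {f : X → ℝ} (hf : Measurable f) (C : ℝ)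
    (hC : ∀ x, |f x| ≤ C) : Integrable f μ := by
  haveI := h
  exact Integrable.of_bound hf.aestronglyMeasurable C (Filter.Eventually.of_forall fun x => by
    rw [Real.norm_eq_abs]; exact hC x)

theorem vel_meas {b : ℕ → X → ℝ} (hb : ∀ k, Measurable (b k)) (S : Finset ℕ) (v : ℕ → ℝ → ℝ)
    (t : ℝ) : Measurable (vel b S v t) := by
  unfold vel
  exact Finset.measurable_fun_sum S fun k _ => (hb k).const_mul _

omit [MeasurableSpace X] in
theorem vel_split (b : ℕ → X → ℝ) {M : ℕ} (hM : 1 ≤ M) (v : ℕ → ℝ → ℝ) (t : ℝ) (x : X) :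
    vel b (Finset.range M) v t x = v 0 t * b 0 x + vel b (Finset.Ico 1 M) v t x := by
  unfold vel
  rw [Finset.range_eq_Ico, Finset.sum_eq_sum_Ico_succ_bot (by omega)]

theorem rpow2 {R al : ℝ} (hR : 0 ≤ R) (hal : 0 < al) : R ^ (al + 2) = R ^ al * R ^ 2 := by
  rw [Real.rpow_add_of_nonneg hR hal.le (by norm_num), Real.rpow_two]

theorem rpow1 {R al : ℝ} (hR : 0 ≤ R) (hal : 0 < al) : R ^ (al + 1) = R ^ al * R := by
  rw [Real.rpow_add_of_nonneg hR hal.le (by norm_num), Real.rpow_one]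

/-- the leading term -/
theorem lead {al : ℝ} (hal : 0 < al) (μ : Measure X) (b0 : X → ℝ) (a : ℝ) :
    a * ∫ x, gf 1 al (a * b0 x) * b0 x ∂μ = |a| ^ (al + 2) * ∫ x, |b0 x| ^ (al + 2) ∂μ := by
  have h1 : ∀ x, gf 1 al (a * b0 x) * b0 x = (|a| ^ al * a) * |b0 x| ^ (al + 2) := by
    intro x
    unfold gf
    rw [abs_mul, Real.mul_rpow (abs_nonneg _) (abs_nonneg _), rpow2 (abs_nonneg _) hal, sq_abs]
    ring
  simp_rw [h1]
  rw [integral_const_mul, rpow2 (abs_nonneg a) hal, sq_abs]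
  ring

/-- the angle -/
theorem ang {P V R : ℝ} (hR : 0 < R) (h : P ^ 2 + V ^ 2 = R ^ 2) :
    ∃ θ : ℝ, V = R * Real.cos θ ∧ P = R * Real.sin θ := by
  have hn : ‖(⟨V, P⟩ : ℂ)‖ = R := by
    have h1 : ‖(⟨V, P⟩ : ℂ)‖ ^ 2 = R ^ 2 := by
      rw [← Complex.normSq_eq_norm_sq, Complex.normSq_mk]
      linarith
    exact (sq_eq_sq₀ (norm_nonneg _) hR.le).1 h1
  have h0 : (⟨V, P⟩ : ℂ) ≠ 0 := by
    intro h0
    rw [h0, norm_zero] at hn
    exact hR.ne hn
  refine ⟨Complex.arg ⟨V, P⟩, ?_, ?_⟩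
  · rw [Complex.cos_arg h0, hn]
    field_simp
  · rw [Complex.sin_arg, hn]
    field_simp

theorem lvz : TayStmt → DerStmt → FrwStmt → BslStmt → LvzStmt := by
  intro hTay hDer hFrw hBsl al B m0 hal hB hm0
  obtain ⟨CT, hCT, tay⟩ := hTay al hal
  obtain ⟨CF, hCF, frw⟩ := hFrw al B m0 hal hB hm0
  obtain ⟨I0, hI0⟩ : ∃ I0 : ℝ, I0 = B ^ (al + 2) * m0 := ⟨_, rfl⟩
  have hI0p : 0 < I0 := by rw [hI0]; exact mul_pos (Real.rpow_pos_of_pos hB _) hm0
  obtain ⟨K1, hK1⟩ : ∃ K1 : ℝ, K1 = 2 * (CT * (16 * B) ^ al * B * ((m0 + 16) / 2)) := ⟨_, rfl⟩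
  have h16 : 0 < (16 * B) ^ al := Real.rpow_pos_of_pos (by positivity) _
  have hK1p : 0 < K1 := by rw [hK1]; positivity
  obtain ⟨K2, hK2⟩ : ∃ K2 : ℝ, K2 = 2 * I0 * CT * CF * 3 ^ (al + 1) := ⟨_, rfl⟩
  have h3p : (0 : ℝ) < 3 ^ (al + 1) := Real.rpow_pos_of_pos (by norm_num) _
  have hK2p : 0 < K2 := by rw [hK2]; positivity
  refine ⟨2 * K1 + K2 + 2 * I0, by positivity, ?_⟩
  intro X _ μ b om M p v γ ε η T t0 R hO hF hε hη hη1 hT hA hW hTR
  have hR := hW.Rp
  have hM := hW.one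
  have hT0 : 0 < T := by linarith
  have hfin := hO.fin
  -- powers of R
  obtain ⟨r, hr⟩ : ∃ r : ℝ, r = R ^ al := ⟨_, rfl⟩
  have hrp : 0 < r := by rw [hr]; exact Real.rpow_pos_of_pos hR _
  have e2 : R ^ (al + 2) = r * R ^ 2 := by rw [rpow2 hR.le hal, hr]
  have e1 : R ^ (al + 1) = r * R := by rw [rpow1 hR.le hal, hr]
  have eD : (16 * B * R) ^ al = (16 * B) ^ al * r := by
    rw [Real.mul_rpow (by positivity) hR.le, hr]
  have e3 : (3 * R) ^ (al + 1) = 3 ^ (al + 1) * (r * R) := by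
    rw [Real.mul_rpow (by norm_num) hR.le, e1]
  have hm1 : T * r ≤ (T * r) ^ (min al 1) := by
    have h1 : (T * r) ^ (1 : ℝ) ≤ (T * r) ^ (min al 1) := by
      refine Real.rpow_le_rpow_of_exponent_ge (by positivity) (by rw [hr]; exact hTR)
        (min_le_right _ _)
    rwa [Real.rpow_one] at h1
  -- the integral I
  obtain ⟨I, hI⟩ : ∃ I : ℝ, I = ∫ x, |b 0 x| ^ (al + 2) ∂μ := ⟨_, rfl⟩
  have hIn : 0 ≤ I := by
    rw [hI]
    exact integral_nonneg fun x => Real.rpow_nonneg (abs_nonneg _) _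
  have hIle : I ≤ I0 := by
    have h1 : ‖∫ x, |b 0 x| ^ (al + 2) ∂μ‖ ≤ B ^ (al + 2) * μ.real univ := by
      refine norm_integral_le_of_norm_le_const (Filter.Eventually.of_forall fun x => ?_)
      rw [Real.norm_eq_abs, abs_of_nonneg (Real.rpow_nonneg (abs_nonneg _) _)]
      exact Real.rpow_le_rpow (abs_nonneg _) (hO.bdd 0 x) (by linarith)
    have h2 := (le_abs_self _).trans h1
    rw [hI, hI0]
    exact h2.trans (mul_le_mul_of_nonneg_left hO.mass (Real.rpow_nonneg hB.le _))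
  -- bounds on the window
  have hv0 : ∀ s ∈ Icc 0 T, |v 0 (t0 + s)| ≤ 2 * R := by
    intro s hs
    have h1 := (hW.w0 s hs).2
    unfold R2 at h1
    refine abs_le_of_sq_le_sq ?_ (by positivity)
    nlinarith [sq_nonneg (p 0 (t0 + s))]
  have hder := hDer X μ b om M al B m0 p v hal hO hM hW.gal
  -- the pointwise estimate
  have key : ∀ s ∈ Icc 0 T, |v 0 (t0 + s) * (∫ x, gl 1 al 1 (vel b (Finset.range M) v (t0 + s) x) *
      b 0 x ∂μ) - |v 0 (t0 + s)| ^ (al + 2) * I| ≤ K1 * η * (r * R ^ 2) := by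
    intro s hs
    have hv := hv0 s hs
    obtain ⟨t, ht⟩ : ∃ t : ℝ, t = t0 + s := ⟨_, rfl⟩
    rw [← ht] at hv ⊢
    rw [hI, ← lead hal μ (b 0) (v 0 t), ← mul_sub]
    have hc : ∀ x, |v 0 t * b 0 x| ≤ 2 * B * R := by
      intro x
      rw [abs_mul]
      calc |v 0 t| * |b 0 x| ≤ (2 * R) * B :=
            mul_le_mul hv (hO.bdd 0 x) (abs_nonneg _) (by positivity)
        _ = 2 * B * R := by ring
    have hvel : ∀ x, |vel b (Finset.range M) v t x| ≤ 14 * B * R := by
      intro x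
      rw [ht]
      exact hW.w3 s hs x
    have hh : ∀ x, |vel b (Finset.Ico 1 M) v t x| ≤ 16 * B * R := by
      intro x
      have h1 := vel_split b hM v t x
      have h2 : vel b (Finset.Ico 1 M) v t x = vel b (Finset.range M) v t x - v 0 t * b 0 x := by
        rw [h1]; ring
      rw [h2]
      calc _ ≤ |vel b (Finset.range M) v t x| + |v 0 t * b 0 x| := abs_sub _ _
        _ ≤ 14 * B * R + 2 * B * R := add_le_add (hvel x) (hc x)
        _ = 16 * B * R := by ring
    have hBR : 0 < B * R := mul_pos hB hR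
    have hDp : 0 < 16 * B * R := by positivity
    have hmv := vel_meas hO.meas (Finset.range M) v t
    have hmh := vel_meas hO.meas (Finset.Ico 1 M) v t
    have hglc : Continuous (gl 1 al 1) :=
      continuous_iff_continuousAt.2 fun s => (Pool.Agent.BEL.H29.gl_deriv hal 1 s).continuousAt
    have hgfm : Measurable (gf 1 al) := by
      unfold gf
      exact (measurable_const.mul (measurable_id.abs.pow_const al)).mul measurable_id
    have hpt : ∀ x, |gl 1 al 1 (vel b (Finset.range M) v t x) * b 0 x -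
        gf 1 al (v 0 t * b 0 x) * b 0 x| ≤
        (CT * (16 * B * R) ^ al * B) * (η * R / 2 + (1 / (2 * (η * R))) *
          vel b (Finset.Ico 1 M) v t x ^ 2) := by
      intro x
      have h1 : gl 1 al 1 (vel b (Finset.range M) v t x) =
          gf 1 al (v 0 t * b 0 x + vel b (Finset.Ico 1 M) v t x) := by
        rw [Pool.Agent.BEL.H29.gl_eq hal ((hvel x).trans hW.w4), vel_split b hM v t x]
      rw [h1, ← sub_mul, abs_mul]
      have h2 := (tay (v 0 t * b 0 x) (vel b (Finset.Ico 1 M) v t x) (16 * B * R) hDp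
        ((hc x).trans (by nlinarith)) (hh x)).2.2.1
      have h3 : |vel b (Finset.Ico 1 M) v t x| ≤ η * R / 2 + (1 / (2 * (η * R))) *
          vel b (Finset.Ico 1 M) v t x ^ 2 := by
        have hq : 0 < η * R := mul_pos hη hR
        have h4 := sq_nonneg (|vel b (Finset.Ico 1 M) v t x| - η * R)
        have h5 := sq_abs (vel b (Finset.Ico 1 M) v t x)
        rw [← h5]
        have h6 : η * R / 2 + (1 / (2 * (η * R))) * |vel b (Finset.Ico 1 M) v t x| ^ 2 -
            |vel b (Finset.Ico 1 M) v t x| =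
            (|vel b (Finset.Ico 1 M) v t x| - η * R) ^ 2 / (2 * (η * R)) := by
          field_simp
          ring
        have h7 : 0 ≤ (|vel b (Finset.Ico 1 M) v t x| - η * R) ^ 2 / (2 * (η * R)) := by
          positivity
        linarith
      have hcf : 0 ≤ CT * (16 * B * R) ^ al := mul_nonneg hCT.le (Real.rpow_nonneg hDp.le _)
      calc _ ≤ (CT * (16 * B * R) ^ al * |vel b (Finset.Ico 1 M) v t x|) * B :=
            mul_le_mul h2 (hO.bdd 0 x) (abs_nonneg _) (mul_nonneg hcf (abs_nonneg _))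
        _ = (CT * (16 * B * R) ^ al * B) * |vel b (Finset.Ico 1 M) v t x| := by ring
        _ ≤ _ := mul_le_mul_of_nonneg_left h3 (mul_nonneg hcf hB.le)
    -- integrability
    have i2 : Integrable (fun x => vel b (Finset.Ico 1 M) v t x ^ 2) μ := by
      refine int_bdd hfin (hmh.pow_const 2) ((16 * B * R) ^ 2) fun x => ?_
      rw [abs_pow]
      exact pow_le_pow_left₀ (abs_nonneg _) (hh x) 2
    have ig : Integrable (fun x => (CT * (16 * B * R) ^ al * B) * (η * R / 2 +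
        (1 / (2 * (η * R))) * vel b (Finset.Ico 1 M) v t x ^ 2)) μ :=
      ((integrable_const _).add (i2.const_mul _)).const_mul _
    have hb1 : ∀ x, |b 0 x| ≤ B := hO.bdd 0
    have hglb : ∀ y, |y| ≤ 1 → |gl 1 al 1 y| ≤ 1 := by
      intro y hy
      rw [Pool.Agent.BEL.H29.gl_eq hal hy]
      unfold gf
      rw [one_mul, abs_mul, abs_of_nonneg (Real.rpow_nonneg (abs_nonneg y) al)]
      have h8 : |y| ^ al ≤ 1 := Real.rpow_le_one (abs_nonneg _) hy hal.le
      calc |y| ^ al * |y| ≤ 1 * 1 := mul_le_mul h8 hy (abs_nonneg _) zero_le_one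
        _ = 1 := one_mul 1
    have hgfb : ∀ y, |y| ≤ 1 → |gf 1 al y| ≤ 1 := by
      intro y hy
      rw [← Pool.Agent.BEL.H29.gl_eq hal hy]
      exact hglb y hy
    have ia : Integrable (fun x => gl 1 al 1 (vel b (Finset.range M) v t x) * b 0 x) μ := by
      refine int_bdd hfin ((hglc.measurable.comp hmv).mul (hO.meas 0)) (1 * B) fun x => ?_
      rw [abs_mul]
      exact mul_le_mul (hglb _ ((hvel x).trans hW.w4)) (hb1 x) (abs_nonneg _) zero_le_one
    have ib : Integrable (fun x => gf 1 al (v 0 t * b 0 x) * b 0 x) μ := by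
      refine int_bdd hfin ((hgfm.comp ((hO.meas 0).const_mul _)).mul (hO.meas 0)) (1 * B)
        fun x => ?_
      rw [abs_mul]
      have hw4 := hW.w4
      exact mul_le_mul (hgfb _ ((hc x).trans (by nlinarith))) (hb1 x) (abs_nonneg _) zero_le_one
    rw [abs_mul, ← integral_sub ia ib]
    have h9 : |∫ x, (gl 1 al 1 (vel b (Finset.range M) v t x) * b 0 x -
        gf 1 al (v 0 t * b 0 x) * b 0 x) ∂μ| ≤
        ∫ x, (CT * (16 * B * R) ^ al * B) * (η * R / 2 + (1 / (2 * (η * R))) *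
          vel b (Finset.Ico 1 M) v t x ^ 2) ∂μ := by
      rw [← Real.norm_eq_abs]
      refine norm_integral_le_of_norm_le ig (Filter.Eventually.of_forall fun x => ?_)
      rw [Real.norm_eq_abs]
      exact hpt x
    have h10 : ∫ x, vel b (Finset.Ico 1 M) v t x ^ 2 ∂μ ≤ (4 * η * R) ^ 2 := by
      have h11 := (hBsl X μ b B m0 hO).2 (Finset.Ico 1 M) (fun k => v k t)
      have h12 : ∫ x, vel b (Finset.Ico 1 M) v t x ^ 2 ∂μ = ∑ k ∈ Finset.Ico 1 M, v k t ^ 2 := h11
      rw [h12]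
      have h13 := hW.w1 s hs
      rw [← ht] at h13
      refine le_trans ?_ h13
      unfold F2
      exact Finset.sum_le_sum fun k _ => by nlinarith [sq_nonneg (p k t)]
    have h14 : ∫ x, (CT * (16 * B * R) ^ al * B) * (η * R / 2 + (1 / (2 * (η * R))) *
          vel b (Finset.Ico 1 M) v t x ^ 2) ∂μ ≤
        (CT * (16 * B * R) ^ al * B) * (η * R * ((m0 + 16) / 2)) := by
      rw [integral_const_mul, integral_add (integrable_const _) (i2.const_mul _),
        integral_const_mul, integral_const, smul_eq_mul]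
      refine mul_le_mul_of_nonneg_left ?_ (mul_nonneg (mul_nonneg hCT.le
        (Real.rpow_nonneg hDp.le _)) hB.le)
      have hq : 0 < η * R := mul_pos hη hR
      have h15 : μ.real univ * (η * R / 2) ≤ m0 * (η * R / 2) :=
        mul_le_mul_of_nonneg_right hO.mass (by positivity)
      have h16' : 1 / (2 * (η * R)) * ∫ x, vel b (Finset.Ico 1 M) v t x ^ 2 ∂μ ≤
          1 / (2 * (η * R)) * (4 * η * R) ^ 2 := mul_le_mul_of_nonneg_left h10 (by positivity)
      have h17 : 1 / (2 * (η * R)) * (4 * η * R) ^ 2 = η * R * 8 := by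
        field_simp
        ring
      rw [h17] at h16'
      linarith
    calc _ ≤ (2 * R) * ((CT * (16 * B * R) ^ al * B) * (η * R * ((m0 + 16) / 2))) :=
          mul_le_mul hv (h9.trans h14) (abs_nonneg _) (by positivity)
      _ = K1 * η * (r * R ^ 2) := by
          rw [eD, hK1]
          ring
  -- the angle
  have hRe := hW.Re
  unfold R2 at hRe
  obtain ⟨θ, hθ1, hθ2⟩ := ang hR hRe
  have hfree : ∀ s ∈ Icc 0 T, |v 0 (t0 + s) - R * Real.cos (om 0 * s + θ)| ≤
      CF * T * (r * R) := by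
    intro s hs
    have h1 := (frw X μ b om M p v η T t0 R hO hF hη hη1 hT hW s hs).1
    rw [hθ1, hθ2, e1] at h1
    have h2 : R * Real.cos θ * Real.cos (om 0 * s) - R * Real.sin θ * Real.sin (om 0 * s) =
        R * Real.cos (om 0 * s + θ) := by
      rw [Real.cos_add]
      ring
    rwa [h2] at h1
  have key2 : ∀ s ∈ Icc 0 T, |(|v 0 (t0 + s)| ^ (al + 2)) -
      (r * R ^ 2) * |Real.cos (om 0 * s + θ)| ^ (al + 2)| ≤
      CT * (3 ^ (al + 1) * (r * R)) * (CF * T * (r * R)) := by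
    intro s hs
    have hc1 : |R * Real.cos (om 0 * s + θ)| ≤ R := by
      rw [abs_mul, abs_of_pos hR]
      nlinarith [Real.abs_cos_le_one (om 0 * s + θ)]
    have h1 := (tay (R * Real.cos (om 0 * s + θ)) (v 0 (t0 + s) - R * Real.cos (om 0 * s + θ))
      (3 * R) (by positivity) (hc1.trans (by linarith)) (by
        calc _ ≤ |v 0 (t0 + s)| + |R * Real.cos (om 0 * s + θ)| := abs_sub _ _
          _ ≤ 2 * R + R := add_le_add (hv0 s hs) hc1
          _ = 3 * R := by ring)).2.2.2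
    rw [add_sub_cancel, e3] at h1
    have h2 : |R * Real.cos (om 0 * s + θ)| ^ (al + 2) =
        (r * R ^ 2) * |Real.cos (om 0 * s + θ)| ^ (al + 2) := by
      rw [abs_mul, abs_of_pos hR, Real.mul_rpow hR.le (abs_nonneg _), e2]
    rw [h2] at h1
    refine h1.trans (mul_le_mul_of_nonneg_left (hfree s hs) (by positivity))
  -- the auxiliary function
  have hgc : Continuous fun s : ℝ => |Real.cos (om 0 * s + θ)| ^ (al + 2) := by
    refine Continuous.rpow_const ?_ fun _ => Or.inr (by linarith)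
    exact (Real.continuous_cos.comp ((continuous_const.mul continuous_id).add
      continuous_const)).abs
  obtain ⟨Φ, hΦ⟩ : ∃ Φ : ℝ → ℝ, Φ = fun s => R2 p v (t0 + s) + 2 * I * (r * R ^ 2) *
    ∫ u in (0 : ℝ)..s, |Real.cos (om 0 * u + θ)| ^ (al + 2) := ⟨_, rfl⟩
  have hΦd : ∀ s, HasDerivAt Φ (-(2 * (v 0 (t0 + s) * ∫ x, gl 1 al 1
      (vel b (Finset.range M) v (t0 + s) x) * b 0 x ∂μ)) +
      2 * I * (r * R ^ 2) * |Real.cos (om 0 * s + θ)| ^ (al + 2)) s := by
    intro s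
    rw [hΦ]
    exact (HasDerivAt.comp_const_add t0 s (hder.1 (t0 + s))).add
      ((hgc.integral_hasStrictDerivAt 0 s).hasDerivAt.const_mul _)
  have hbd : ∀ s ∈ Ico 0 T, ‖-(2 * (v 0 (t0 + s) * ∫ x, gl 1 al 1
      (vel b (Finset.range M) v (t0 + s) x) * b 0 x ∂μ)) +
      2 * I * (r * R ^ 2) * |Real.cos (om 0 * s + θ)| ^ (al + 2)‖ ≤
      2 * K1 * η * (r * R ^ 2) + K2 * (T * r) * (r * R ^ 2) := by
    intro s hs
    have hs' : s ∈ Icc 0 T := ⟨hs.1, hs.2.le⟩
    have h1 := key s hs'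
    have h2 := key2 s hs'
    obtain ⟨G, hG⟩ : ∃ G : ℝ, G = ∫ x, gl 1 al 1 (vel b (Finset.range M) v (t0 + s) x) *
      b 0 x ∂μ := ⟨_, rfl⟩
    obtain ⟨cc, hcc⟩ : ∃ cc : ℝ, cc = |Real.cos (om 0 * s + θ)| ^ (al + 2) := ⟨_, rfl⟩
    obtain ⟨va, hva⟩ : ∃ va : ℝ, va = |v 0 (t0 + s)| ^ (al + 2) := ⟨_, rfl⟩
    rw [← hG, ← hva] at h1
    rw [← hcc, ← hva] at h2
    rw [← hG, ← hcc, Real.norm_eq_abs]
    have h3 : -(2 * (v 0 (t0 + s) * G)) + 2 * I * (r * R ^ 2) * cc =
        -(2 * (v 0 (t0 + s) * G - va * I)) - 2 * I * (va - r * R ^ 2 * cc) := by ring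
    rw [h3]
    have h4 : |2 * (v 0 (t0 + s) * G - va * I)| ≤ 2 * (K1 * η * (r * R ^ 2)) := by
      rw [abs_mul, abs_of_pos (by norm_num : (0 : ℝ) < 2)]
      linarith
    have h5 : |2 * I * (va - r * R ^ 2 * cc)| ≤
        2 * I0 * (CT * (3 ^ (al + 1) * (r * R)) * (CF * T * (r * R))) := by
      rw [abs_mul, abs_of_nonneg (by linarith : 0 ≤ 2 * I)]
      exact mul_le_mul (by linarith) h2 (abs_nonneg _) (by positivity)
    have h6 : 2 * I0 * (CT * (3 ^ (al + 1) * (r * R)) * (CF * T * (r * R))) =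
        K2 * (T * r) * (r * R ^ 2) := by
      rw [hK2]
      ring
    calc _ ≤ |-(2 * (v 0 (t0 + s) * G - va * I))| + |2 * I * (va - r * R ^ 2 * cc)| := abs_sub _ _
      _ ≤ 2 * (K1 * η * (r * R ^ 2)) + K2 * (T * r) * (r * R ^ 2) := by
          rw [abs_neg, ← h6]
          exact add_le_add h4 h5
      _ = _ := by ring
  have hmv := norm_image_sub_le_of_norm_deriv_le_segment' (a := 0) (b := T)
    (fun s _ => (hΦd s).hasDerivWithinAt) hbd T ⟨hT0.le, le_refl T⟩
  rw [Real.norm_eq_abs, hΦ] at hmv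
  simp only [intervalIntegral.integral_same, add_zero, mul_zero, sub_zero] at hmv
  have hRe' := hW.Re
  rw [hRe'] at hmv
  have ha0 := hA.a0 θ
  obtain ⟨J, hJ⟩ : ∃ J : ℝ, J = ∫ s in (0 : ℝ)..T, |Real.cos (om 0 * s + θ)| ^ (al + 2) :=
    ⟨_, rfl⟩
  rw [← hJ] at hmv ha0
  rw [e2, ← hI, ← hr]
  have hfin1 : R2 p v (t0 + T) - R ^ 2 + 2 * I * mc (al + 2) * T * (r * R ^ 2) =
      (R2 p v (t0 + T) + 2 * I * (r * R ^ 2) * J - R ^ 2) -
      2 * I * (r * R ^ 2) * (J - mc (al + 2) * T) := by ring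
  rw [hfin1]
  have h7 : |2 * I * (r * R ^ 2) * (J - mc (al + 2) * T)| ≤ 2 * I0 * (r * R ^ 2) * (ε * T) := by
    rw [abs_mul, abs_of_nonneg (by positivity : 0 ≤ 2 * I * (r * R ^ 2))]
    exact mul_le_mul (mul_le_mul_of_nonneg_right (by linarith) (by positivity)) ha0 (abs_nonneg _)
      (by positivity)
  have h8 : (2 * K1 * η * (r * R ^ 2) + K2 * (T * r) * (r * R ^ 2)) * T ≤
      (2 * K1 * η * (r * R ^ 2) + K2 * (T * r) ^ (min al 1) * (r * R ^ 2)) * T := by
    refine mul_le_mul_of_nonneg_right (add_le_add_right ?_ _) hT0.le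
    exact mul_le_mul_of_nonneg_right (mul_le_mul_of_nonneg_left hm1 hK2p.le) (by positivity)
  obtain ⟨z, hz⟩ : ∃ z : ℝ, z = (T * r) ^ (min al 1) := ⟨_, rfl⟩
  have hzp : 0 ≤ z := by rw [hz]; positivity
  rw [← hz] at h8 ⊢
  have hw : 0 < T * (r * R ^ 2) := by positivity
  calc _ ≤ |R2 p v (t0 + T) + 2 * I * (r * R ^ 2) * J - R ^ 2| +
        |2 * I * (r * R ^ 2) * (J - mc (al + 2) * T)| := abs_sub _ _
    _ ≤ (2 * K1 * η * (r * R ^ 2) + K2 * z * (r * R ^ 2)) * T + 2 * I0 * (r * R ^ 2) * (ε * T) :=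
        add_le_add (hmv.trans h8) h7
    _ = (2 * K1 * η + K2 * z + 2 * I0 * ε) * (T * (r * R ^ 2)) := by ring
    _ ≤ ((2 * K1 + K2 + 2 * I0) * (ε + η + z)) * (T * (r * R ^ 2)) := by
        refine mul_le_mul_of_nonneg_right ?_ hw.le
        have a1 : 0 ≤ K1 * ε := by positivity
        have a2 : 0 ≤ K1 * z := by positivity
        have a3 : 0 ≤ K2 * ε := by positivity
        have a4 : 0 ≤ K2 * η := by positivity
        have a5 : 0 ≤ I0 * η := by positivity
        have a6 : 0 ≤ I0 * z := by positivity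
        nlinarith
    _ = _ := by ring

end

end Pool.Agent.BEW.H13
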